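import Mathlib

/-!
# Symmetric congruences modulo an ultrafilter are transitive

Let `w` be an ultrafilter on the integers.  If `w`-almost all `a` satisfy `aℤ ∈ w`, then the
congruence modulo `w` is transitive.  Otherwise `w`-almost all `a` are bad at some prime `p`, in the
sense that some power `p ^ k` with `p ^ k ℤ ∉ w` divides `a`.  We choose a sequence `n_j`, tending to
zero in the profinite topology, and colour the primes with two colours such that for every generic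
`a`, every `J` and every colour there is `z` such that all primes at which one of the numbers
`a z + n_j`, `j ≤ J`, is bad have the other colour.  This gives ultrafilters `u` and `v` such that
`w` divides `u ⊕ v` but not `v ⊕ u`.
-/

set_option autoImplicit false

namespace Pool.Agent.Results.MP_6ac782_lc.SymmetricTransitive

open Filter

/-- The ultrafilter `-u`. -/
def neg (u : Ultrafilter ℤ) : Ultrafilter ℤ := u.map fun x => -x

/-- The ultrafilter `u ⊕ v`: `A ∈ u ⊕ v` iff `{x | {y | x + y ∈ A} ∈ v} ∈ u`. -/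
def oplus (u v : Ultrafilter ℤ) : Ultrafilter ℤ := u.bind fun x => v.map fun y => x + y

/-- The ultrafilter `u ⊖ v`. -/
def ominus (u v : Ultrafilter ℤ) : Ultrafilter ℤ := oplus u (neg v)

/-- Upward closed sets for divisibility. -/
def Upward (A : Set ℤ) : Prop := ∀ a ∈ A, ∀ b, a ∣ b → b ∈ A

/-- Divisibility of ultrafilters: every upward closed member of `w` belongs to `t`. -/
def TDvd (w t : Ultrafilter ℤ) : Prop := ∀ A : Set ℤ, Upward A → A ∈ w → A ∈ t

/-- Congruence modulo `w`. -/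
def Cong (w u v : Ultrafilter ℤ) : Prop := TDvd w (ominus u v)

theorem mem_oplus {u v : Ultrafilter ℤ} {A : Set ℤ} :
    A ∈ oplus u v ↔ {x | {y | x + y ∈ A} ∈ v} ∈ u := Iff.rfl

theorem mem_ominus {u v : Ultrafilter ℤ} {A : Set ℤ} :
    A ∈ ominus u v ↔ {x | {y | x + -y ∈ A} ∈ v} ∈ u := Iff.rfl

theorem upward_multiples (a : ℤ) : Upward {y | a ∣ y} := fun _ hb _ hc => dvd_trans hb hc

/-- The first case. -/
theorem trans_of_mem {w : Ultrafilter ℤ} (h : {a : ℤ | {y : ℤ | a ∣ y} ∈ w} ∈ w)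
    {u v t : Ultrafilter ℤ} (huv : Cong w u v) (hvt : Cong w v t) : Cong w u t := by
  intro A hA hAw
  obtain ⟨a, haA, ha⟩ := w.nonempty_of_mem (inter_mem hAw h)
  have h1 := huv _ (upward_multiples a) ha
  have h2 := hvt _ (upward_multiples a) ha
  rw [mem_ominus] at h1 h2 ⊢
  filter_upwards [h1] with x hx
  obtain ⟨y, hy1, hy2⟩ := v.nonempty_of_mem (inter_mem hx h2)
  have hy2' : {z : ℤ | y + -z ∈ {y : ℤ | a ∣ y}} ∈ t := hy2
  change {z : ℤ | x + -z ∈ A} ∈ t
  filter_upwards [hy2'] with z hz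
  refine hA a haA _ ?_
  have h3 : a ∣ x + -y := hy1
  have h4 : a ∣ y + -z := hz
  have : x + -z = (x + -y) + (y + -z) := by ring
  rw [this]
  exact dvd_add h3 h4

/-! ## Bad primes -/

section Bad
variable (w : Ultrafilter ℤ)

/-- `x` is bad at `p`. -/
def Bad (p : ℕ) (x : ℤ) : Prop := ∃ k : ℕ, {y : ℤ | (p : ℤ) ^ k ∣ y} ∉ w ∧ (p : ℤ) ^ k ∣ x

/-- The least exponent `k` with `p ^ k ℤ ∉ w` (or `0`). -/
noncomputable def K (p : ℕ) : ℕ := sInf {k : ℕ | {y : ℤ | (p : ℤ) ^ k ∣ y} ∉ w}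

variable {w}

theorem Bad.mono {p : ℕ} {x y : ℤ} (h : Bad w p x) (hxy : x ∣ y) : Bad w p y := by
  obtain ⟨k, h1, h2⟩ := h
  exact ⟨k, h1, h2.trans hxy⟩

theorem Bad.K_spec {p : ℕ} {x : ℤ} (h : Bad w p x) :
    {y : ℤ | (p : ℤ) ^ (K w p) ∣ y} ∉ w ∧ (p : ℤ) ^ (K w p) ∣ x := by
  obtain ⟨k, h1, h2⟩ := h
  have h3 : K w p ∈ {k : ℕ | {y : ℤ | (p : ℤ) ^ k ∣ y} ∉ w} := Nat.sInf_mem ⟨k, h1⟩
  have h4 : K w p ≤ k := Nat.sInf_le h1
  exact ⟨h3, (pow_dvd_pow _ h4).trans h2⟩

theorem Bad.dvd {p : ℕ} {x : ℤ} (h : Bad w p x) : (p : ℤ) ∣ x := by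
  obtain ⟨k, h1, h2⟩ := h
  rcases Nat.eq_zero_or_pos k with rfl | hk
  · exfalso
    apply h1
    have : {y : ℤ | (p : ℤ) ^ 0 ∣ y} = Set.univ := by ext y; simp
    rw [this]
    exact univ_mem
  · exact (dvd_pow_self _ hk.ne').trans h2

theorem not_bad (w : Ultrafilter ℤ) (p : ℕ) : {a : ℤ | ¬ Bad w p a} ∈ w := by
  by_cases h : {y : ℤ | (p : ℤ) ^ (K w p) ∣ y} ∈ w
  · refine mem_of_superset univ_mem fun a _ ha => ?_
    exact ha.K_spec.1 h
  · have h1 : {y : ℤ | (p : ℤ) ^ (K w p) ∣ y}ᶜ ∈ w := Ultrafilter.compl_mem_iff_notMem.2 h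
    refine mem_of_superset h1 fun a ha hbad => ?_
    exact ha hbad.K_spec.2

theorem exists_bad {a : ℤ} (ha : a ≠ 0) (h : {y : ℤ | a ∣ y} ∉ w) :
    ∃ p : ℕ, p.Prime ∧ Bad w p a := by
  by_contra hcon
  push Not at hcon
  apply h
  have h1 : ∀ p ∈ a.natAbs.primeFactors, {y : ℤ | (p : ℤ) ^ (a.natAbs.factorization p) ∣ y} ∈ w := by
    intro p hp
    by_contra hnot
    refine hcon p (Nat.prime_of_mem_primeFactors hp) ⟨_, hnot, ?_⟩
    have := Nat.ordProj_dvd a.natAbs p
    rw [← Int.natCast_dvd] at this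
    exact_mod_cast this
  have h2 := (Filter.biInter_finset_mem (f := (w : Filter ℤ))
    (s := fun p : ℕ => {y : ℤ | (p : ℤ) ^ (a.natAbs.factorization p) ∣ y}) a.natAbs.primeFactors).2 h1
  refine mem_of_superset h2 fun y hy => ?_
  have hy' := Set.mem_iInter₂.1 hy
  change a ∣ y
  rw [← Int.natAbs_dvd_natAbs, Nat.dvd_iff_prime_pow_dvd_dvd]
  intro p k hp hk
  rcases Nat.eq_zero_or_pos k with rfl | hk0
  · simp
  · have hpa : p ∈ a.natAbs.primeFactors := by
      rw [Nat.mem_primeFactors]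
      exact ⟨hp, (dvd_pow_self p hk0.ne').trans hk, Int.natAbs_ne_zero.2 ha⟩
    have h3 : k ≤ a.natAbs.factorization p :=
      (hp.pow_dvd_iff_le_factorization (Int.natAbs_ne_zero.2 ha)).1 hk
    have h4 : (p : ℤ) ^ (a.natAbs.factorization p) ∣ y := hy' p hpa
    have h5 : ((p ^ (a.natAbs.factorization p) : ℕ) : ℤ) ∣ y := by exact_mod_cast h4
    exact (pow_dvd_pow p h3).trans (Int.natCast_dvd.1 h5)

/-- The sequence tending to zero in the profinite topology. -/
noncomputable def nn (w : Ultrafilter ℤ) (j : ℕ) : ℕ :=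
  ((j + 2).factorial) ^ (1 + ∑ p ∈ Finset.range (j + 3), K w p)

theorem nn_pos (j : ℕ) : 0 < nn w j := pow_pos (Nat.factorial_pos _) _

theorem nn_K {p j : ℕ} (hp : p.Prime) (h : p ≤ j + 2) : p ^ (K w p) ∣ nn w j := by
  have h1 : p ∣ (j + 2).factorial := Nat.dvd_factorial hp.pos h
  have h2 : K w p ≤ 1 + ∑ p ∈ Finset.range (j + 3), K w p := by
    have : K w p ≤ ∑ p ∈ Finset.range (j + 3), K w p :=
      Finset.single_le_sum (f := fun p => K w p) (fun _ _ => Nat.zero_le _)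
        (Finset.mem_range.2 (by omega))
    omega
  exact (pow_dvd_pow p h2).trans (pow_dvd_pow_of_dvd h1 _)

theorem nn_dvd {N j : ℕ} (hN : 0 < N) (h : N ≤ j + 2) : N ∣ nn w j :=
  (Nat.dvd_factorial hN h).trans (dvd_pow_self _ (by omega))

theorem nn_not_dvd {p j : ℕ} (hp : p.Prime) (h : j + 2 < p) : ¬ p ∣ nn w j := by
  intro hd
  have h1 := hp.dvd_of_dvd_pow hd
  rw [hp.dvd_factorial] at h1
  omega

/-- The choice modulo one prime. -/
theorem exists_residue {a J : ℕ} (hgen : ∀ p : ℕ, p.Prime → p ≤ J + 2 → ¬ Bad w p a) {p : ℕ}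
    (hp : p.Prime) : ∃ r : ℕ, ∀ z : ℕ, z ≡ r [MOD p] → ∀ j ≤ J,
      ¬ Bad w p ((a * z + nn w j : ℕ) : ℤ) := by
  have : Fact p.Prime := ⟨hp⟩
  by_cases hpa : p ∣ a
  · refine ⟨1, fun z hz j hj hbad => ?_⟩
    have hz' : ¬ p ∣ z := by
      intro h
      have h1 := (Nat.modEq_zero_iff_dvd.2 h).symm.trans hz
      have h2 := (Nat.modEq_zero_iff_dvd.1 h1.symm)
      exact hp.one_lt.ne' (Nat.dvd_one.1 h2)
    by_cases hjp : j + 2 < p
    · have h1 : p ∣ a * z + nn w j := Int.natCast_dvd_natCast.1 hbad.dvd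
      have h2 : p ∣ nn w j := (Nat.dvd_add_right (hpa.mul_right z)).1 h1
      exact nn_not_dvd hp hjp h2
    · push Not at hjp
      obtain ⟨h0, h1⟩ := hbad.K_spec
      have h1' : p ^ (K w p) ∣ a * z + nn w j := by
        rw [← Int.natCast_dvd_natCast]; push_cast; push_cast at h1; exact h1
      have h2 : p ^ (K w p) ∣ a * z := (Nat.dvd_add_left (nn_K hp hjp)).1 h1'
      have h3 : p ^ (K w p) ∣ a :=
        (Nat.Coprime.dvd_mul_right (((Nat.Prime.coprime_iff_not_dvd hp).2 hz').pow_left _)).1 h2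
      refine hgen p hp (by omega) ⟨K w p, h0, ?_⟩
      exact_mod_cast Int.natCast_dvd_natCast.2 h3
  · let S : Finset (ZMod p) :=
      insert 0 ((Finset.range (p - 2)).image fun j => -(nn w j : ZMod p))
    have hcard : S.card < Fintype.card (ZMod p) := by
      rw [ZMod.card]
      have h1 : ((Finset.range (p - 2)).image fun j => -(nn w j : ZMod p)).card ≤ p - 2 :=
        Finset.card_image_le.trans (Finset.card_range _).le
      have h2 := Finset.card_insert_le (0 : ZMod p)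
        ((Finset.range (p - 2)).image fun j => -(nn w j : ZMod p))
      have h3 := hp.two_le
      simp only [S]
      omega
    obtain ⟨c, hc⟩ : ∃ c, c ∉ S := by
      by_contra hcon
      push Not at hcon
      have : S = Finset.univ := Finset.eq_univ_iff_forall.2 hcon
      rw [this, Finset.card_univ] at hcard
      exact lt_irrefl _ hcard
    have ha : (a : ZMod p) ≠ 0 := by
      rw [Ne, ZMod.natCast_eq_zero_iff]; exact hpa
    refine ⟨(c * (a : ZMod p)⁻¹).val, fun z hz j hj hbad => ?_⟩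
    have hz' : (z : ZMod p) = c * (a : ZMod p)⁻¹ := by
      have := (ZMod.natCast_eq_natCast_iff _ _ _).2 hz
      rw [this, ZMod.natCast_val, ZMod.cast_id]
    have h1 : p ∣ a * z + nn w j := Int.natCast_dvd_natCast.1 hbad.dvd
    rw [← ZMod.natCast_eq_zero_iff] at h1
    push_cast at h1
    rw [hz', mul_comm (a : ZMod p), mul_assoc, inv_mul_cancel₀ ha, mul_one] at h1
    apply hc
    rw [Finset.mem_insert, Finset.mem_image]
    by_cases hjp : j + 2 < p
    · right
      exact ⟨j, Finset.mem_range.2 (by omega), by rw [neg_eq_iff_add_eq_zero, add_comm]; exact h1⟩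
    · left
      push Not at hjp
      have h2 : (nn w j : ZMod p) = 0 := by
        rw [ZMod.natCast_eq_zero_iff]; exact nn_dvd hp.pos hjp
      rw [h2, add_zero] at h1
      exact h1

theorem exists_z {a J : ℕ} (hgen : ∀ p : ℕ, p.Prime → p ≤ J + 2 → ¬ Bad w p a) (R : Finset ℕ)
    (hR : ∀ p ∈ R, p.Prime) : ∃ z : ℕ, ∀ p ∈ R, ∀ j ≤ J,
      ¬ Bad w p ((a * z + nn w j : ℕ) : ℤ) := by
  classical
  choose! r hr using fun (p : ℕ) (hp : p.Prime) => exists_residue hgen hp
  obtain ⟨z, hz⟩ := Nat.chineseRemainderOfFinset r id R (fun p hp => (hR p hp).ne_zero) (by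
    intro p hp q hq hpq
    exact (Nat.coprime_primes (hR p hp) (hR q hq)).2 hpq)
  exact ⟨z, fun p hp => hr p (hR p hp) z (hz p hp)⟩

end Bad

/-! ## The colouring -/

section Colour
variable (w : Ultrafilter ℤ)

open Classical in
/-- A choice of `z`. -/
noncomputable def zz (a J : ℕ) (R : Finset ℕ) : ℕ :=
  if h : ∃ z : ℕ, ∀ p ∈ R, ∀ j ≤ J, ¬ Bad w p ((a * z + nn w j : ℕ) : ℤ) then h.choose else 0

open Classical in
/-- The bad primes of the numbers `a z + n_j`, `j ≤ J`. -/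
noncomputable def Ex (a J z : ℕ) : Finset ℕ :=
  (Finset.range (J + 1)).biUnion fun j =>
    (a * z + nn w j).primeFactors.filter fun p => Bad w p ((a * z + nn w j : ℕ) : ℤ)

variable (e : ℕ → ℕ × ℕ × Bool)

/-- The primes coloured before stage `k`. -/
noncomputable def RR : ℕ → Finset ℕ
  | 0 => ∅
  | k + 1 => RR k ∪ Ex w (e k).1 (e k).2.1 (zz w (e k).1 (e k).2.1 (RR k))

/-- The number `z` chosen at stage `k`. -/
noncomputable def zk (k : ℕ) : ℕ := zz w (e k).1 (e k).2.1 (RR w e k)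

open Classical in
/-- The colouring of the primes. -/
noncomputable def colour (p : ℕ) : Bool :=
  if h : ∃ k, p ∈ RR w e (k + 1) then !(e (Nat.find h)).2.2 else true

theorem RR_prime (k : ℕ) : ∀ p ∈ RR w e k, p.Prime := by
  classical
  induction k with
  | zero => intro p hp; simp [RR] at hp
  | succ k ih =>
    intro p hp
    rw [RR, Finset.mem_union] at hp
    rcases hp with hp | hp
    · exact ih p hp
    · rw [Ex, Finset.mem_biUnion] at hp
      obtain ⟨j, -, hp⟩ := hp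
      rw [Finset.mem_filter] at hp
      exact Nat.prime_of_mem_primeFactors hp.1

theorem RR_mono : Monotone (RR w e) := by
  refine monotone_nat_of_le_succ fun k => ?_
  rw [RR]
  exact Finset.subset_union_left

theorem colour_spec (k : ℕ) (hgen : ∀ p : ℕ, p.Prime → p ≤ (e k).2.1 + 2 → ¬ Bad w p (e k).1)
    {j : ℕ} (hj : j ≤ (e k).2.1) {p : ℕ} (hp : p.Prime)
    (hbad : Bad w p (((e k).1 * zk w e k + nn w j : ℕ) : ℤ)) : colour w e p = !(e k).2.2 := by
  classical
  have hmem : p ∈ RR w e (k + 1) := by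
    rw [RR, Finset.mem_union]
    right
    rw [Ex, Finset.mem_biUnion]
    refine ⟨j, Finset.mem_range.2 (by omega), ?_⟩
    rw [Finset.mem_filter]
    refine ⟨?_, hbad⟩
    rw [Nat.mem_primeFactors]
    refine ⟨hp, Int.natCast_dvd_natCast.1 hbad.dvd, ?_⟩
    have := nn_pos (w := w) j
    omega
  have hnot : p ∉ RR w e k := by
    intro hpk
    have hex := exists_z hgen (RR w e k) (RR_prime w e k)
    have h1 : zk w e k = hex.choose := dif_pos hex
    have h2 := hex.choose_spec p hpk j hj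
    rw [← h1] at h2
    exact h2 hbad
  have hex : ∃ k, p ∈ RR w e (k + 1) := ⟨k, hmem⟩
  have hfind : Nat.find hex = k := by
    rw [Nat.find_eq_iff]
    refine ⟨hmem, fun l hl hl' => hnot ?_⟩
    exact RR_mono w e (by omega : l + 1 ≤ k) hl'
  unfold colour
  rw [dif_pos hex, hfind]

end Colour

/-! ## The second case -/

theorem not_symm {w : Ultrafilter ℤ} (h : {a : ℤ | {y : ℤ | a ∣ y} ∈ w} ∉ w) :
    ∃ u v : Ultrafilter ℤ, TDvd w (oplus u v) ∧ ¬ TDvd w (oplus v u) := by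
  classical
  have h' : {a : ℤ | {y : ℤ | a ∣ y} ∉ w} ∈ w := Ultrafilter.compl_mem_iff_notMem.2 h
  have h0 : {a : ℤ | a ≠ 0} ∈ w := by
    by_contra hcon
    have h1 : {a : ℤ | a ≠ 0}ᶜ ∈ w := Ultrafilter.compl_mem_iff_notMem.2 hcon
    apply h
    refine mem_of_superset h1 fun a ha => ?_
    have ha0 : a = 0 := by
      by_contra hne
      exact ha hne
    change {y : ℤ | a ∣ y} ∈ w
    refine mem_of_superset h1 fun y hy => ?_
    have hy0 : y = 0 := by
      by_contra hne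
      exact hy hne
    rw [hy0]
    exact dvd_zero a
  obtain ⟨e, he⟩ := exists_surjective_nat (ℕ × ℕ × Bool)
  -- the least bad prime
  let mb : ℤ → ℕ := fun a => if h : ∃ p : ℕ, p.Prime ∧ Bad w p a then Nat.find h else 0
  have hmb : ∀ a : ℤ, a ≠ 0 → {y : ℤ | a ∣ y} ∉ w → (mb a).Prime ∧ Bad w (mb a) a := by
    intro a ha0 ha
    have hex := exists_bad ha0 ha
    have : mb a = Nat.find hex := dif_pos hex
    rw [this]
    exact Nat.find_spec hex
  -- the colour that occurs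
  obtain ⟨i, hi⟩ : ∃ i : Bool, {a : ℤ | colour w e (mb a) = i} ∈ w := by
    by_contra hcon
    push Not at hcon
    have h1 : {a : ℤ | colour w e (mb a) = true}ᶜ ∈ w := Ultrafilter.compl_mem_iff_notMem.2 (hcon true)
    have h2 : {a : ℤ | colour w e (mb a) = false}ᶜ ∈ w :=
      Ultrafilter.compl_mem_iff_notMem.2 (hcon false)
    obtain ⟨a, ha1, ha2⟩ := w.nonempty_of_mem (inter_mem h1 h2)
    cases hc : colour w e (mb a) with
    | true => exact ha1 hc
    | false => exact ha2 hc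
  let B : Set ℤ := {a | a ≠ 0 ∧ {y : ℤ | a ∣ y} ∉ w ∧ colour w e (mb a) = i}
  have hB : B ∈ w := by
    filter_upwards [h', h0, hi] with a ha1 ha2 ha3
    exact ⟨ha2, ha1, ha3⟩
  let A : Set ℤ := {x | ∃ b ∈ B, b ∣ x}
  have hA : A ∈ w := mem_of_superset hB fun b hb => ⟨b, hb, dvd_rfl⟩
  have hAup : Upward A := by
    rintro a ⟨b, hb, hba⟩ c hac
    exact ⟨b, hb, hba.trans hac⟩
  -- the ultrafilter `u`
  let f : {A' : Set ℤ // Upward A' ∧ A' ∈ w} × ℕ → Filter ℤ := fun x =>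
    𝓟 {m : ℤ | m ∈ x.1.1 ∧ ∀ j ≤ x.2, m + (nn w j : ℤ) ∉ A}
  have hdir : Directed (· ≥ ·) f := by
    rintro ⟨⟨A₁, h1, h1'⟩, J₁⟩ ⟨⟨A₂, h2, h2'⟩, J₂⟩
    refine ⟨⟨⟨A₁ ∩ A₂, fun a ha b hab => ⟨h1 a ha.1 b hab, h2 a ha.2 b hab⟩,
      inter_mem h1' h2'⟩, max J₁ J₂⟩, ?_, ?_⟩
    · simp only [f, ge_iff_le, le_principal_iff, mem_principal]
      rintro m ⟨hm1, hm2⟩
      exact ⟨hm1.1, fun j hj => hm2 j (hj.trans (le_max_left _ _))⟩
    · simp only [f, ge_iff_le, le_principal_iff, mem_principal]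
      rintro m ⟨hm1, hm2⟩
      exact ⟨hm1.2, fun j hj => hm2 j (hj.trans (le_max_right _ _))⟩
  have hne : (⨅ x, f x).NeBot := by
    have : Nonempty ({A' : Set ℤ // Upward A' ∧ A' ∈ w} × ℕ) := ⟨⟨⟨A, hAup, hA⟩, 0⟩⟩
    refine iInf_neBot_of_directed' hdir fun x => ?_
    obtain ⟨⟨A', hA'up, hA'⟩, J⟩ := x
    refine principal_neBot_iff.2 ?_
    have h1 : (⋂ p ∈ Finset.range (J + 3), {a : ℤ | ¬ Bad w p a}) ∈ w := by
      have := (Filter.biInter_finset_mem (f := (w : Filter ℤ))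
        (s := fun p : ℕ => {a : ℤ | ¬ Bad w p a}) (Finset.range (J + 3))).2 fun p _ => not_bad w p
      exact this
    obtain ⟨a, ⟨haA', ha0⟩, hagen⟩ := w.nonempty_of_mem (inter_mem (inter_mem hA' h0) h1)
    obtain ⟨k, hk⟩ := he (a.natAbs, J, i)
    have hgen : ∀ p : ℕ, p.Prime → p ≤ (e k).2.1 + 2 → ¬ Bad w p (e k).1 := by
      intro p _ hpJ hbad
      rw [hk] at hpJ hbad
      have h2 := Set.mem_iInter₂.1 hagen p (Finset.mem_range.2 (by
        have : p ≤ J + 2 := hpJ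
        omega))
      exact h2 (hbad.mono (Int.natAbs_dvd.2 dvd_rfl))
    refine ⟨((a.natAbs * zk w e k : ℕ) : ℤ), ?_, ?_⟩
    · refine hA'up a haA' _ ?_
      push_cast
      exact ((dvd_abs a a).2 dvd_rfl).mul_right _
    · rintro j hj ⟨b, ⟨hb0, hbw, hbc⟩, hbd⟩
      obtain ⟨hq1, hq2⟩ := hmb b hb0 hbw
      have h3 := hq2.mono hbd
      have h4 : ((a.natAbs * zk w e k : ℕ) : ℤ) + (nn w j : ℤ) =
          (((e k).1 * zk w e k + nn w j : ℕ) : ℤ) := by
        rw [hk]; push_cast; rfl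
      rw [h4] at h3
      have h5 := colour_spec w e k hgen (by rw [hk]; exact hj) hq1 h3
      rw [hbc, hk] at h5
      cases i <;> simp at h5
  set u : Ultrafilter ℤ := Ultrafilter.of (⨅ x, f x) with hu
  have hu1 : ∀ A' : Set ℤ, Upward A' → A' ∈ w → A' ∈ u := by
    intro A' h1 h2
    have h3 : {m : ℤ | m ∈ A' ∧ ∀ j ≤ 0, m + (nn w j : ℤ) ∉ A} ∈ (⨅ x, f x) :=
      mem_iInf_of_mem (⟨⟨A', h1, h2⟩, 0⟩ : {A' : Set ℤ // Upward A' ∧ A' ∈ w} × ℕ)
        (mem_principal_self _)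
    exact mem_of_superset (Ultrafilter.of_le _ h3) fun m hm => hm.1
  have hu2 : ∀ j : ℕ, {m : ℤ | m + (nn w j : ℤ) ∉ A} ∈ u := by
    intro j
    have h3 : {m : ℤ | m ∈ A ∧ ∀ i ≤ j, m + (nn w i : ℤ) ∉ A} ∈ (⨅ x, f x) :=
      mem_iInf_of_mem (⟨⟨A, hAup, hA⟩, j⟩ : {A' : Set ℤ // Upward A' ∧ A' ∈ w} × ℕ)
        (mem_principal_self _)
    exact mem_of_superset (Ultrafilter.of_le _ h3) fun m hm => hm.2 j le_rfl
  -- the ultrafilter `v`
  set v : Ultrafilter ℤ := (hyperfilter ℕ).map fun j => (nn w j : ℤ) with hv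
  have hv1 : ∀ m : ℤ, m ≠ 0 → {y : ℤ | m ∣ y} ∈ v := by
    intro m hm
    change {j : ℕ | m ∣ (nn w j : ℤ)} ∈ (hyperfilter ℕ : Filter ℕ)
    have h1 : (Set.Iio m.natAbs)ᶜ ∈ (hyperfilter ℕ : Filter ℕ) :=
      Filter.hyperfilter_le_cofinite (by
        rw [Filter.mem_cofinite, compl_compl]
        exact Set.finite_Iio _)
    refine mem_of_superset h1 fun j hj => ?_
    have hj' : m.natAbs ≤ j := by simpa using hj
    change m ∣ (nn w j : ℤ)
    rw [← Int.natAbs_dvd, Int.natCast_dvd_natCast]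
    exact nn_dvd (Int.natAbs_pos.2 hm) (by omega)
  refine ⟨u, v, ?_, ?_⟩
  · intro A' h1 h2
    rw [mem_oplus]
    have h3 : {a : ℤ | a ≠ 0} ∈ u := by
      by_contra hcon
      have h4 : {a : ℤ | a ≠ 0}ᶜ ∈ u := Ultrafilter.compl_mem_iff_notMem.2 hcon
      obtain ⟨m, hm1, hm2⟩ := u.nonempty_of_mem (inter_mem h4 (hu2 0))
      have hm0 : m = 0 := by
        by_contra hne
        exact hm1 hne
      -- every nonzero multiple of elements: `nn w 0` is not in `A` but then `A` avoids it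
      have h5 : {a : ℤ | a = 0} ∈ u := mem_of_superset h4 fun a ha => by
        by_contra hne
        exact ha hne
      -- for large `j`, `nn w j` is a multiple of an element of `B`
      obtain ⟨b, hb⟩ := w.nonempty_of_mem hB
      have h6 : b ∣ ((nn w b.natAbs : ℕ) : ℤ) := by
        rw [← Int.natAbs_dvd, Int.natCast_dvd_natCast]
        exact nn_dvd (Int.natAbs_pos.2 hb.1) (by omega)
      obtain ⟨m', hm1', hm2'⟩ := u.nonempty_of_mem (inter_mem h5 (hu2 b.natAbs))
      have hm0' : m' = 0 := hm1'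
      apply hm2'
      rw [hm0', zero_add]
      exact ⟨b, hb, h6⟩
    filter_upwards [hu1 A' h1 h2, h3] with m hm hm0
    change {y : ℤ | m + y ∈ A'} ∈ v
    refine mem_of_superset (hv1 m hm0) fun y hy => ?_
    exact h1 m hm _ (dvd_add dvd_rfl hy)
  · intro hcon
    have h1 := hcon A hAup hA
    rw [mem_oplus] at h1
    obtain ⟨j, hj⟩ := (Filter.nonempty_of_mem (f := (hyperfilter ℕ : Filter ℕ))
      (show {j : ℕ | {y : ℤ | (nn w j : ℤ) + y ∈ A} ∈ u} ∈ (hyperfilter ℕ : Filter ℕ) from h1))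
    obtain ⟨m, hm1, hm2⟩ := u.nonempty_of_mem (inter_mem hj (hu2 j))
    have hm1' : (nn w j : ℤ) + m ∈ A := hm1
    rw [add_comm] at hm1'
    exact hm2 hm1'

theorem neg_neg_uf (v : Ultrafilter ℤ) : neg (neg v) = v := by
  ext A
  change {x : ℤ | - - x ∈ A} ∈ v ↔ A ∈ v
  simp only [neg_neg]
  exact Iff.rfl

/-- For every ultrafilter `w ≠ 0` on the integers, if the congruence modulo `w` is symmetric then it
is transitive. -/
theorem result (w : Ultrafilter ℤ) (_hw : w ≠ pure 0)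
    (hsymm : ∀ u v : Ultrafilter ℤ, Cong w u v → Cong w v u) :
    ∀ u v t : Ultrafilter ℤ, Cong w u v → Cong w v t → Cong w u t := by
  by_cases h : {a : ℤ | {y : ℤ | a ∣ y} ∈ w} ∈ w
  · intro u v t huv hvt
    exact trans_of_mem h huv hvt
  · exfalso
    obtain ⟨u, v, h1, h2⟩ := not_symm h
    have h3 : Cong w u (neg v) := by
      unfold Cong ominus
      rw [neg_neg_uf]
      exact h1
    have h4 := hsymm u (neg v) h3
    apply h2
    intro A hA hAw
    have h5 : A ∈ ominus (neg v) u := h4 A hA hAw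
    rw [mem_ominus] at h5
    rw [mem_oplus]
    have h5' : {x : ℤ | {y : ℤ | -x + -y ∈ A} ∈ u} ∈ v := h5
    filter_upwards [h5'] with x hx
    filter_upwards [hx] with y hy
    have h6 : -x + -y ∈ A := hy
    exact hA _ h6 _ (by
      have : -x + -y = -(x + y) := by ring
      rw [this]
      exact (neg_dvd).2 dvd_rfl)

end Pool.Agent.Results.MP_6ac782_lc.SymmetricTransitive
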